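import Pool.Agent.Lib.P325rc.Par

/-!
The choice of the parameters with an explicit degree.
-/

open scoped BigOperators

namespace Pool.Agent.Lib.P325rx

open Pool.Agent.Lib.P325x (Pt sg mean)
open Pool.Agent.Lib.P325rc

variable {n s : ℕ}

theorem log_four_gt : (1 : ℝ) < Real.log 4 := by
  rw [show (4 : ℝ) = 2 ^ 2 by norm_num, Real.log_pow]
  have := Real.log_two_gt_d9
  push_cast
  linarith

theorem parX (t0 s : ℕ) (θ : ℝ) (hθ : 0 < θ) (hθ1 : θ ≤ 1) :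
    ∃ (I m D : ℕ) (τ τ' η : ℝ),
      (3 / 2 : ℝ) ^ I ≤ 3 / 2 * (4 * 2 ^ t0 * Real.log (4 / θ ^ 4) + 2) ∧
      1 ≤ m ∧ (m : ℝ) / 2 ^ (2 * I + 3) ≤ 1 / 2 ^ t0 ∧ 4 * D < 2 ^ (2 * I + 3 + 1) ∧
      0 < τ' ∧ τ' ≤ τ ∧ 0 ≤ η ∧ η ≤ θ ^ 2 ∧
      (1 + (2 : ℝ) ^ s) ^ D * τ ≤ 15 * (θ ^ 2) ^ (4 * (4 * 2 ^ t0)) ∧
      D / τ * τ' + η ^ 2 ≤ (θ ^ 2) ^ 2 / 4 ∧
      (∀ (n : ℕ) (α : Pt n → Pt s), wt α ≤ D →
        (1 - rej (2 * I + 3) α) ^ m ≤ (1 - 1 / ((4 * 2 ^ t0 : ℕ) : ℝ)) ^ (wt α)) ∧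
      (∀ (n : ℕ) (α : Pt n → Pt s), α ∈ rp n (2 * I + 3) s → D < wt α →
        (1 - rej (2 * I + 3) α) ^ m ≤ η) := by
  have hβ0 : 0 < θ ^ 2 := by positivity
  have hβ1 : θ ^ 2 ≤ 1 := pow_le_one₀ hθ.le hθ1
  obtain ⟨β, hβ⟩ : ∃ β : ℝ, β = θ ^ 2 := ⟨_, rfl⟩
  rw [← hβ] at hβ0 hβ1 ⊢
  set q : ℝ := 1 - 1 / ((4 * 2 ^ t0 : ℕ) : ℝ) with hq
  have hTpos : (0 : ℝ) < ((4 * 2 ^ t0 : ℕ) : ℝ) := by
    push_cast
    positivity
  have hT1 : (1 : ℝ) ≤ ((4 * 2 ^ t0 : ℕ) : ℝ) := by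
    have : 1 ≤ 4 * 2 ^ t0 := Nat.one_le_iff_ne_zero.2 (by positivity)
    exact_mod_cast this
  have hq0 : 0 ≤ q := by
    rw [hq, sub_nonneg, div_le_one hTpos]
    exact hT1
  have hq1 : q < 1 := by
    have : 0 < 1 / ((4 * 2 ^ t0 : ℕ) : ℝ) := by positivity
    rw [hq]
    linarith
  have hη0 : 0 < β ^ 2 / 4 := by positivity
  have hβ4 : 4 / θ ^ 4 = (β ^ 2 / 4)⁻¹ := by
    rw [hβ, inv_div, ← pow_mul]
  set lg : ℝ := Real.log (4 / θ ^ 4) with hlg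
  have hlg' : Real.log (β ^ 2 / 4) = -lg := by rw [hlg, hβ4, Real.log_inv, neg_neg]
  have hlg1 : 1 < lg := by
    have h1 : Real.log 4 ≤ lg := by
      apply Real.log_le_log (by norm_num)
      rw [le_div_iff₀ (by positivity)]
      have : θ ^ 4 ≤ 1 := pow_le_one₀ hθ.le hθ1
      linarith
    linarith [log_four_gt]
  obtain ⟨D, hDe⟩ : ∃ D : ℕ, D = ⌈((4 * 2 ^ t0 : ℕ) : ℝ) * lg⌉₊ := ⟨_, rfl⟩
  have hTlg : 0 ≤ ((4 * 2 ^ t0 : ℕ) : ℝ) * lg := mul_nonneg hTpos.le (by linarith)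
  have hD1 : ((4 * 2 ^ t0 : ℕ) : ℝ) * lg ≤ D := by
    rw [hDe]
    exact Nat.le_ceil _
  have hD2 : (D : ℝ) < ((4 * 2 ^ t0 : ℕ) : ℝ) * lg + 1 := by
    rw [hDe]
    exact Nat.ceil_lt_add_one hTlg
  have hD : q ^ D ≤ β ^ 2 / 4 := by
    have h1 : q ≤ Real.exp (-(1 / ((4 * 2 ^ t0 : ℕ) : ℝ))) := by
      have := Real.add_one_le_exp (-(1 / ((4 * 2 ^ t0 : ℕ) : ℝ)))
      rw [hq]
      linarith
    have h2 : q ^ D ≤ Real.exp (-(1 / ((4 * 2 ^ t0 : ℕ) : ℝ))) ^ D := pow_le_pow_left₀ hq0 h1 D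
    refine h2.trans ?_
    rw [← Real.exp_nat_mul, ← Real.exp_log hη0, hlg']
    apply Real.exp_le_exp.2
    have h3 : lg ≤ (D : ℝ) * (1 / ((4 * 2 ^ t0 : ℕ) : ℝ)) := by
      rw [mul_one_div, le_div_iff₀ hTpos]
      linarith
    linarith
  have hτ : 0 < 15 * β ^ (4 * (4 * 2 ^ t0)) / (1 + (2 : ℝ) ^ s) ^ D := by positivity
  obtain ⟨τ, hτd⟩ : ∃ τ : ℝ, τ = 15 * β ^ (4 * (4 * 2 ^ t0)) / (1 + (2 : ℝ) ^ s) ^ D := ⟨_, rfl⟩
  rw [← hτd] at hτ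
  have hτ' : 0 < τ * (β ^ 2 / (8 * (D + 1))) := by positivity
  set Y : ℝ := 4 * 2 ^ t0 * lg + 2 with hY
  have hY2 : 2 ≤ Y := by
    have : 0 ≤ 4 * 2 ^ t0 * lg := by positivity
    linarith
  obtain ⟨I, hI0, hIu⟩ : ∃ I : ℕ, Y ≤ (3 / 2 : ℝ) ^ I ∧ (3 / 2 : ℝ) ^ I ≤ 3 / 2 * Y := by
    have hex : ∃ I : ℕ, Y ≤ (3 / 2 : ℝ) ^ I := by
      obtain ⟨I, hI⟩ := pow_unbounded_of_one_lt Y (by norm_num : (1 : ℝ) < 3 / 2)
      exact ⟨I, hI.le⟩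
    classical
    refine ⟨Nat.find hex, Nat.find_spec hex, ?_⟩
    rcases Nat.eq_zero_or_pos (Nat.find hex) with h0 | h0
    · rw [h0, pow_zero]
      linarith
    · have h1 := Nat.find_min hex (Nat.sub_lt h0 one_pos)
      push Not at h1
      have h2 : Nat.find hex = (Nat.find hex - 1) + 1 := by omega
      rw [h2, pow_succ]
      linarith
  have h2t : (0 : ℝ) < 2 ^ t0 := by positivity
  have hcast : ((4 * 2 ^ t0 : ℕ) : ℝ) = 4 * 2 ^ t0 := by push_cast; ring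
  have hI1 : 2 ^ t0 * (-Real.log (β ^ 2 / 4)) ≤ (3 / 2 : ℝ) ^ I := by
    rw [hlg', neg_neg]
    have : 0 ≤ 2 ^ t0 * lg := by positivity
    linarith
  have hI2 : t0 ≤ I := by
    have h1 : (2 : ℝ) ^ t0 ≤ 2 ^ I := by
      have h3 : (2 : ℝ) ^ t0 * 1 ≤ 2 ^ t0 * lg := mul_le_mul_of_nonneg_left hlg1.le h2t.le
      have h4 : (3 / 2 : ℝ) ^ I ≤ 2 ^ I := pow_le_pow_left₀ (by norm_num) (by norm_num) I
      nlinarith
    exact (Nat.pow_le_pow_iff_right (by norm_num : 1 < 2)).1 (by exact_mod_cast h1)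
  have hD4 : D < 4 ^ (I + 1) := by
    have h1 : (D : ℝ) < 4 ^ (I + 1) := by
      have h4 : (3 / 2 : ℝ) ^ I ≤ 4 ^ I := pow_le_pow_left₀ (by norm_num) (by norm_num) I
      have h5 : (4 : ℝ) ^ (I + 1) = 4 * 4 ^ I := by ring
      have h6 : (0 : ℝ) < 4 ^ I := by positivity
      rw [hcast] at hD2
      rw [h5]
      linarith
    exact_mod_cast h1
  have htd : t0 ≤ 2 * I + 3 := by omega
  have hη1 : β ^ 2 / 4 ≤ β := by nlinarith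
  refine ⟨I, 2 ^ (2 * I + 3 - t0), D, τ, min τ (τ * (β ^ 2 / (8 * (D + 1)))),
    β ^ 2 / 4, hIu, Nat.one_le_two_pow, ?_, ?_, lt_min hτ hτ', min_le_left _ _, hη0.le, hη1, ?_,
    ?_, ?_, ?_⟩
  · have h7 : (2 : ℝ) ^ (2 * I + 3) = 2 ^ (2 * I + 3 - t0) * 2 ^ t0 := by
      rw [← pow_add, Nat.sub_add_cancel htd]
    rw [h7]
    push_cast
    have h8 : (2 : ℝ) ^ (2 * I + 3 - t0) ≠ 0 := by positivity
    have h9 : (2 : ℝ) ^ t0 ≠ 0 := by positivity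
    apply le_of_eq
    field_simp
  · have h2 : 2 ^ (2 * I + 3 + 1) = 4 * 4 ^ (I + 1) := by
      rw [show (4 : ℕ) = 2 ^ 2 by norm_num, ← pow_mul, ← pow_add]
      congr 1
      omega
    rw [h2]
    omega
  · have h1 : (0 : ℝ) < (1 + (2 : ℝ) ^ s) ^ D := by positivity
    rw [hτd, mul_div_cancel₀ _ h1.ne']
  · have h1 : (D : ℝ) / τ * min τ (τ * (β ^ 2 / (8 * (D + 1)))) ≤ β ^ 2 / 8 := by
      calc (D : ℝ) / τ * min τ (τ * (β ^ 2 / (8 * (D + 1))))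
          ≤ (D : ℝ) / τ * (τ * (β ^ 2 / (8 * (D + 1)))) :=
            mul_le_mul_of_nonneg_left (min_le_right _ _) (by positivity)
        _ = (D / (D + 1)) * (β ^ 2 / 8) := by
            have h2 : (D : ℝ) + 1 ≠ 0 := by positivity
            field_simp
        _ ≤ 1 * (β ^ 2 / 8) := by
            refine mul_le_mul_of_nonneg_right ?_ (by positivity)
            rw [div_le_one (by positivity)]
            linarith
        _ = β ^ 2 / 8 := one_mul _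
    have h2 : (β ^ 2 / 4) ^ 2 ≤ β ^ 2 / 8 := by
      have h3 : 0 ≤ β ^ 2 := by positivity
      have h4 : β ^ 2 ≤ 1 := pow_le_one₀ hβ0.le hβ1
      nlinarith
    linarith
  · intro n α hα
    exact eig_low I t0 htd α (hα.trans hD4.le)
  · intro n α hα hw
    by_cases hc : wt α ≤ 4 ^ (I + 1)
    · refine (eig_low I t0 htd α hc).trans ?_
      exact (pow_le_pow_of_le_one hq0 hq1.le hw.le).trans hD
    · refine (eig_high I t0 htd α hα (not_le.1 hc)).trans ?_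
      have h1 : -((3 / 2 : ℝ) ^ I / 2 ^ t0) ≤ Real.log (β ^ 2 / 4) := by
        have h2 : (0 : ℝ) < 2 ^ t0 := by positivity
        rw [neg_le, le_div_iff₀ h2]
        linarith
      calc Real.exp (-((3 / 2 : ℝ) ^ I / 2 ^ t0)) ≤ Real.exp (Real.log (β ^ 2 / 4)) :=
            Real.exp_le_exp.2 h1
        _ = β ^ 2 / 4 := Real.exp_log hη0

end Pool.Agent.Lib.P325rx
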