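import Pool.Agent.Lib.P325rc.Sound
import Pool.Agent.Lib.P325rx.Par

/-!
Soundness of the code game with explicit parameters.
-/

open scoped BigOperators

namespace Pool.Agent.Lib.P325rx

open Pool.Agent.Lib.P325x (Pt sg mean Game)
open Pool.Agent.Lib.P325rc
open Pool.Agent.Lib.P325rc.SoundAux
open Pool.Agent.Lib.P325x (mean_add mean_smul mean_sum mean_mono mean_nonneg mean_const mean_congr
  mean_equiv mean_prod pt_add_self)

/-- `log (20 / δ) ≥ 14 / 5`. -/
theorem log_twenty_ge {δ : ℝ} (hδ : 0 < δ) (hδ1 : δ ≤ 1) : 14 / 5 ≤ Real.log (20 / δ) := by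
  have h1 : Real.log 20 ≤ Real.log (20 / δ) := by
    apply Real.log_le_log (by norm_num)
    rw [le_div_iff₀ hδ]
    linarith
  have h2 : (14 : ℝ) / 5 ≤ Real.log 20 := by
    have h3 : Real.log (2 ^ 17) ≤ Real.log (20 ^ 4) := Real.log_le_log (by norm_num) (by norm_num)
    rw [Real.log_pow, Real.log_pow] at h3
    have := Real.log_two_gt_d9
    push_cast at h3
    linarith
  linarith

theorem two_pow_clog (t : ℕ) (ht : 1 ≤ t) : ∃ t0 : ℕ, t ≤ 2 ^ t0 ∧ 2 ^ t0 ≤ 2 * t := by
  refine ⟨Nat.clog 2 t, Nat.le_pow_clog (by norm_num) t, ?_⟩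
  rcases Nat.eq_zero_or_pos (Nat.clog 2 t) with h0 | h0
  · rw [h0, pow_zero]
    omega
  · have h1 : 1 < t := by
      by_contra hc
      have : t = 1 := by omega
      rw [this] at h0
      simp at h0
    have h2 := Nat.pow_pred_clog_lt_self (b := 2) (by norm_num) h1
    have h3 : 2 ^ Nat.clog 2 t = 2 * 2 ^ (Nat.clog 2 t).pred := by
      rw [← pow_succ']
      congr 1
      exact (Nat.succ_pred_eq_of_pos h0).symm
    rw [h3]
    omega

theorem sndX (t : ℕ) (ht : 1 ≤ t) (δ : ℝ) (hδ : 0 < δ) (hδ1 : δ ≤ 1) :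
    ∃ (s I m : ℕ) (Mb : ℝ), (s : ℝ) ≤ 96 * t * Real.log (20 / δ) ∧
      (3 / 2 : ℝ) ^ I ≤ 62 * t * Real.log (20 / δ) ∧
      1 ≤ s ∧ 1 ≤ m ∧ (m : ℝ) / 2 ^ (2 * I + 3) ≤ 1 / t ∧
      ∀ (n : ℕ) (U W ι : Type) [Fintype ι] [Nonempty ι] (src : ι → U) (dst : ι → W) (b : ι → Pt n),
        (codeGame n (2 * I + 3) s m src dst b).value ≤ δ / 2 +
          Mb * (Game.mk src dst (fun e => Equiv.addRight (b e))).value := by
  obtain ⟨θ, hθ⟩ : ∃ θ : ℝ, θ = δ / 20 := ⟨_, rfl⟩
  have hθ0 : 0 < θ := by
    rw [hθ]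
    positivity
  have hθ1 : θ ≤ 1 := by
    rw [hθ]
    linarith
  have h5 : 5 * θ ≤ δ / 4 := by
    rw [hθ]
    linarith
  obtain ⟨t0, ht0, ht0'⟩ := two_pow_clog t ht
  have ht0r : (t : ℝ) ≤ 2 ^ t0 := by exact_mod_cast ht0
  have ht0r' : (2 : ℝ) ^ t0 ≤ 2 * t := by exact_mod_cast ht0'
  have htr : (1 : ℝ) ≤ t := by exact_mod_cast ht
  set lg : ℝ := Real.log (20 / δ) with hlg
  have hlg1 : 14 / 5 ≤ lg := log_twenty_ge hδ hδ1
  have hlogθ : Real.log θ = -lg := by
    rw [hlg, hθ, ← Real.log_inv, inv_div]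
  have hlog4 : Real.log 4 ≤ 7 / 5 := by
    rw [show (4 : ℝ) = 2 ^ 2 by norm_num, Real.log_pow]
    have := Real.log_two_lt_d9
    push_cast
    linarith
  obtain ⟨T, hT⟩ : ∃ T : ℕ, T = 4 * 2 ^ t0 := ⟨_, rfl⟩
  have hTr : (T : ℝ) ≤ 8 * t := by
    rw [hT]
    push_cast
    linarith
  have hT1 : 1 ≤ T := by
    rw [hT]
    have := Nat.one_le_two_pow (n := t0)
    omega
  obtain ⟨β, hβe⟩ : ∃ β : ℝ, β = (θ ^ 2) ^ (4 * T) := ⟨_, rfl⟩
  have hβ : 0 < β := by
    rw [hβe]
    positivity
  have hβl : Real.log β = -(8 * T * lg) := by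
    rw [hβe, Real.log_pow, Real.log_pow, hlogθ]
    push_cast
    ring
  have hx0 : 0 < 4 / (δ * β) := by positivity
  have hx1 : Real.log (4 / (δ * β)) ≤ 65 * t * lg := by
    rw [Real.log_div (by norm_num) (by positivity), Real.log_mul (by positivity) (by positivity),
      hβl]
    have h1 : -Real.log δ ≤ lg - 14 / 5 := by
      have h2 : lg = Real.log 20 - Real.log δ := by
        rw [hlg, Real.log_div (by norm_num) (by positivity)]
      have h3 := log_twenty_ge one_pos le_rfl
      rw [div_one] at h3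
      linarith
    have h4 : 8 * (T : ℝ) * lg ≤ 64 * t * lg := by
      refine mul_le_mul_of_nonneg_right ?_ (by linarith)
      linarith
    have h5 : lg ≤ t * lg := le_mul_of_one_le_left (by linarith) htr
    linarith
  obtain ⟨s, hs⟩ : ∃ s : ℕ, s = ⌈Real.log (4 / (δ * β)) / Real.log 2⌉₊ + 1 := ⟨_, rfl⟩
  have hl2 : 0 < Real.log 2 := Real.log_pos (by norm_num)
  have hs1 : 4 / (δ * β) ≤ (2 : ℝ) ^ s := by
    rw [← Real.log_le_log_iff hx0 (by positivity), Real.log_pow]
    have h1 := Nat.le_ceil (Real.log (4 / (δ * β)) / Real.log 2)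
    rw [div_le_iff₀ hl2] at h1
    rw [hs]
    push_cast
    nlinarith
  have hs2 : (s : ℝ) ≤ 96 * t * lg := by
    have h1 : Real.log (4 / (δ * β)) / Real.log 2 ≤ 94 * t * lg := by
      rw [div_le_iff₀ hl2]
      refine hx1.trans ?_
      have h2 : 0 ≤ t * lg := mul_nonneg (by linarith) (by linarith)
      have h3 := Real.log_two_gt_d9
      nlinarith
    have h4 := Nat.ceil_le_ceil h1
    have h5 : (⌈Real.log (4 / (δ * β)) / Real.log 2⌉₊ : ℝ) < 94 * t * lg + 1 := by
      refine lt_of_le_of_lt (by exact_mod_cast h4) (Nat.ceil_lt_add_one ?_)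
      have : 0 ≤ t * lg := mul_nonneg (by linarith) (by linarith)
      linarith
    have h6 : 14 / 5 ≤ t * lg := by nlinarith
    rw [hs]
    push_cast
    linarith
  have hc4 : 1 / ((2 : ℝ) ^ s * β) ≤ δ / 4 := by
    rw [div_le_iff₀ (by positivity)] at hs1
    rw [div_le_iff₀ (by positivity)]
    linarith
  obtain ⟨I0, m, D, τ, τ', η, hIb, hm1, hmd, hD, hτ'0, hττ', hη0, hη, hτD, hsm, hr1, hr2⟩ :=
    parX t0 s θ hθ0 hθ1
  have hI2 : (3 / 2 : ℝ) ^ I0 ≤ 62 * t * lg := by
    refine hIb.trans ?_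
    have h1 : Real.log (4 / θ ^ 4) ≤ 9 / 2 * lg := by
      rw [Real.log_div (by norm_num) (by positivity), Real.log_pow, hlogθ]
      push_cast
      linarith
    have h2 : 4 * (2 : ℝ) ^ t0 * Real.log (4 / θ ^ 4) ≤ 8 * t * (9 / 2 * lg) := by
      refine mul_le_mul (by linarith) h1 ?_ (by positivity)
      apply Real.log_nonneg
      rw [le_div_iff₀ (by positivity)]
      have : θ ^ 4 ≤ 1 := pow_le_one₀ hθ0.le hθ1
      linarith
    have h6 : 14 / 5 ≤ t * lg := by nlinarith
    linarith
  rw [← hT] at hτD hr1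
  obtain ⟨k, hk⟩ : ∃ k : ℕ, k = ⌈(D : ℝ) / τ'⌉₊ := ⟨_, rfl⟩
  refine ⟨s, I0, m, (k : ℝ) * k, hs2, hI2, by omega, hm1, ?_, ?_⟩
  · refine hmd.trans ?_
    exact one_div_le_one_div_of_le (by exact_mod_cast ht) ht0r
  generalize 2 * I0 + 3 = d at *
  intro n U W ι _ _ src dst b
  set I : Game U W (Pt n) ι := Game.mk src dst (fun e => Equiv.addRight (b e)) with hI0
  have hv := val_nonneg I
  have hsupr : ∀ p : (U × Tb n d s → Pt s) × (W × Tb n d s → Pt s),
      (codeGame n d s m src dst b).satFrac p.1 p.2 ≤ δ / 2 + (k : ℝ) * k * I.value := by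
    rintro ⟨A, B⟩
    rw [sat_code]
    classical
    -- the lists
    set LU : U → Finset (Pt n) := fun u =>
      Finset.univ.filter (fun i => τ' ≤ Jn D (hI A u) i) with hLU
    set LW : W → Finset (Pt n) := fun w =>
      Finset.univ.filter (fun i => τ' ≤ Jn D (hI B w) i) with hLW
    have hcard : ∀ (V : Type) (C : V × Tb n d s → Pt s) (u : V),
        (Finset.univ.filter (fun i => τ' ≤ Jn D (hI C u) i)).card ≤ k := by
      intro V C u
      have h1 := card_bigC D (by omega) (h := hI C u) (hI_nonneg C u) (hI_sum C u) hτ'0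
      rw [Nat.card_eq_fintype_card, Fintype.card_subtype] at h1
      have h2 : ((Finset.univ.filter (fun i => τ' ≤ Jn D (hI C u) i)).card : ℝ) ≤ (k : ℝ) := by
        rw [hk]
        exact h1.trans (Nat.le_ceil _)
      exact_mod_cast h2
    have hLUc : ∀ u, (LU u).card ≤ k := fun u => hcard U A u
    have hLWc : ∀ w, (LW w).card ≤ k := fun w => hcard W B w
    choose fU hfU using fun u => enum (0 : Pt n) k (LU u) (hLUc u)
    choose fW hfW using fun w => enum (0 : Pt n) k (LW w) (hLWc w)
    -- decodable edges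
    set Dec : ι → Prop := fun e => ∃ i ∈ LU (src e), i + b e ∈ LW (dst e) with hDec
    have hedge : ∀ e, (mean fun a => acc m A B (src e) (dst e) (b e) a) ≤
        δ / 2 + if Dec e then 1 else 0 := by
      intro e
      by_cases hd : Dec e
      · rw [if_pos hd]
        have h1 : (mean fun a => acc m A B (src e) (dst e) (b e) a) ≤
            mean fun _ : Pt s => (1 : ℝ) :=
          mean_mono fun a => acc_le m A B _ _ _ a
        rw [mean_const] at h1
        linarith
      · rw [if_neg hd, add_zero]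
        have hacc : ∀ a, acc m A B (src e) (dst e) (b e) a ≤
            (4 * θ + θ ^ 2) + ∑ ω, if β < mean (hI A (src e) ω) ∧ β < mean (hI B (dst e) (ω + a))
              then min (mean (hI A (src e) ω)) (mean (hI B (dst e) (ω + a))) else 0 := by
          intro a
          rw [acc_eq]
          have h1 := acceptC (m := m) D hD (h := hI A (src e))
            (g := fun ω y => hI B (dst e) (ω + a) (shT (b e) a y))
            (hI_nonneg A _) (hI_sum A _) (fun ω y => hI_nonneg B _ _ _)
            (fun y => hI_shift_sum B _ _ _ y) T hT1 θ hθ0 τ τ' η (hτ'0.trans_le hττ') hττ'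
            hτ'0.le hη0 hη hτD hsm (hr1 n) (hr2 n) (by
              intro i
              by_contra hcon
              push Not at hcon
              apply hd
              refine ⟨i, ?_, ?_⟩
              · rw [hLU, Finset.mem_filter]
                exact ⟨Finset.mem_univ _, hcon.1⟩
              · rw [hLW, Finset.mem_filter]
                refine ⟨Finset.mem_univ _, ?_⟩
                rw [← Jn_shift D (b e) a (hI B (dst e)) i]
                exact hcon.2)
          rw [← hβe] at h1
          refine h1.trans (le_of_eq ?_)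
          congr 1
          refine Finset.sum_congr rfl (fun ω _ => ?_)
          have h2 : mean (fun y => hI B (dst e) (ω + a) (shT (b e) a y)) =
              mean (hI B (dst e) (ω + a)) := mean_shT (b e) a (hI B (dst e) (ω + a))
          rw [h2]
        refine (mean_mono hacc).trans ?_
        rw [mean_add, mean_const]
        have h3 := core s β hβ (fun ω => mean (hI A (src e) ω)) (fun ω => mean (hI B (dst e) ω))
          (fun ω => mean_nonneg (fun y => hI_nonneg _ _ _ _))
          (fun ω => mean_nonneg (fun y => hI_nonneg _ _ _ _)) (sum_mean_hI A _) (sum_mean_hI B _)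
        have h4 : θ ^ 2 ≤ θ := by nlinarith
        linarith
    refine (mean_mono hedge).trans ?_
    rw [mean_add, mean_const]
    refine add_le_add le_rfl ?_
    -- decoding
    have hpt : ∀ e, (if Dec e then (1 : ℝ) else 0) ≤ ∑ j : Fin k, ∑ j' : Fin k,
        if fU (src e) j + b e = fW (dst e) j' then (1 : ℝ) else 0 := by
      intro e
      have hnn : ∀ j j' : Fin k, (0 : ℝ) ≤
          if fU (src e) j + b e = fW (dst e) j' then (1 : ℝ) else 0 := by
        intro j j'
        split_ifs <;> norm_num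
      by_cases hd : Dec e
      · rw [if_pos hd]
        obtain ⟨i, hi, hi'⟩ := hd
        obtain ⟨j, hj⟩ := hfU _ i hi
        obtain ⟨j', hj'⟩ := hfW _ _ hi'
        have h1 : (1 : ℝ) ≤ ∑ j' : Fin k,
            if fU (src e) j + b e = fW (dst e) j' then (1 : ℝ) else 0 := by
          refine le_trans (le_of_eq ?_) (Finset.single_le_sum (f := fun j' =>
            if fU (src e) j + b e = fW (dst e) j' then (1 : ℝ) else 0)
            (fun j' _ => hnn j j') (Finset.mem_univ j'))
          rw [if_pos (by rw [hj, hj'])]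
        exact h1.trans (Finset.single_le_sum (f := fun j => ∑ j' : Fin k,
          if fU (src e) j + b e = fW (dst e) j' then (1 : ℝ) else 0)
          (fun j _ => Finset.sum_nonneg (fun j' _ => hnn j j')) (Finset.mem_univ j))
      · rw [if_neg hd]
        exact Finset.sum_nonneg (fun j _ => Finset.sum_nonneg (fun j' _ => hnn j j'))
    refine (mean_mono hpt).trans ?_
    rw [mean_sum Finset.univ (fun (j : Fin k) (e : ι) => ∑ j' : Fin k,
        if fU (src e) j + b e = fW (dst e) j' then (1 : ℝ) else 0)]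
    have hjj : ∀ j : Fin k, mean (fun e => ∑ j' : Fin k,
        if fU (src e) j + b e = fW (dst e) j' then (1 : ℝ) else 0) ≤ k * I.value := by
      intro j
      rw [mean_sum Finset.univ (fun (j' : Fin k) (e : ι) =>
        if fU (src e) j + b e = fW (dst e) j' then (1 : ℝ) else 0)]
      have h6 : ∀ j' : Fin k, mean (fun e => if fU (src e) j + b e = fW (dst e) j' then
          (1 : ℝ) else 0) ≤ I.value := by
        intro j'
        have h7 := le_val I (fun u => fU u j) (fun w => fW w j')
        rw [sat_eq] at h7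
        exact h7
      refine (Finset.sum_le_sum (fun j' _ => h6 j')).trans (le_of_eq ?_)
      rw [Finset.sum_const, Finset.card_univ, Fintype.card_fin, nsmul_eq_mul]
    refine (Finset.sum_le_sum (fun j _ => hjj j)).trans (le_of_eq ?_)
    rw [Finset.sum_const, Finset.card_univ, Fintype.card_fin, nsmul_eq_mul, mul_assoc]
  exact Real.iSup_le hsupr (by positivity)

end Pool.Agent.Lib.P325rx
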