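import Pool.Agent.Lib.P325rm.BaseQ
import Pool.Agent.Lib.P325rx.Sound

/-!
The base family with explicit numbers of labels and exponents.
-/

open scoped BigOperators

namespace Pool.Agent.Lib.P325rx

open Pool.Agent.Lib.P325x (Game Pt nz)
open Pool.Agent.Lib.P325h (IsLocalExpectation)
open Pool.Agent.Lib.P325sdp (MomentPSD)
open Pool.Agent.Lib.P325rc (Tb Nz nzT shT codeGame card_tb)
open Pool.Agent.Lib.P325rm
open Pool.Agent.Lib.P325rm.BaseQAux

theorem baseX (ε δ : ℝ) (hε : 0 < ε) (hεh : ε ≤ 1) (hδ : 0 < δ) (hδh : δ ≤ 1) :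
    ∃ (s I : ℕ) (C : ℝ),
      (s : ℝ) ≤ 96 * (8 / ε + 1) * Real.log (20 / δ) ∧
      (3 / 2 : ℝ) ^ I ≤ 62 * (8 / ε + 1) * Real.log (20 / δ) ∧ ∀ r : ℕ,
    ∃ (n : ℕ) (ι : Type) (_ : Fintype ι) (src dst : ι → Fin n) (b : ι → Pt s)
      (E : ((Fin n ⊕ Fin n → Pt s) → ℝ) →ₗ[ℝ] ℝ), Nonempty ι ∧
      (n : ℝ) ≤ Real.exp (C * ((r : ℝ) + 1) ^ (2 * I + 5)) ∧
      (Game.mk src dst (fun e => Equiv.addRight (b e))).value ≤ δ ∧
      IsLocalExpectation r E ∧ MomentPSD E ∧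
      1 - ε ≤ E (fun z => (Game.mk src dst (fun e => Equiv.addRight (b e))).satFrac
        (fun u => z (Sum.inl u)) (fun w => z (Sum.inr w))) := by
  classical
  set ε' : ℝ := min ε 1 with hε'
  have hε0 : 0 < ε' := lt_min hε one_pos
  have hε1 : ε' ≤ 1 := min_le_right _ _
  have hεε : 1 - ε ≤ 1 - ε' := by linarith [min_le_left ε 1]
  set t : ℕ := ⌈8 / ε'⌉₊ with ht
  have ht4 : 8 / ε' ≤ (t : ℝ) := Nat.le_ceil _
  have ht0 : (0 : ℝ) < t := lt_of_lt_of_le (by positivity) ht4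
  have ht1 : 1 ≤ t := by exact_mod_cast ht0
  have hta : 1 / (t : ℝ) ≤ ε' / 8 := by
    rw [div_le_iff₀ ht0]
    rw [div_le_iff₀ hε0] at ht4
    linarith
  have htu : (t : ℝ) ≤ 8 / ε + 1 := by
    have h1 : ε' = ε := min_eq_left hεh
    have h2 : (t : ℝ) < 8 / ε' + 1 := Nat.ceil_lt_add_one (by positivity)
    rw [h1] at h2
    exact h2.le
  have hlg0 : 0 ≤ Real.log (20 / δ) := le_trans (by norm_num) (log_twenty_ge hδ hδh)
  obtain ⟨s, I0, m, Mb, hsb, hIb, hs1, hm1, hmd, hM⟩ := sndX t ht1 δ hδ hδh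
  generalize hd : 2 * I0 + 3 = d at hmd hM
  have hM0 : 0 ≤ |Mb| := abs_nonneg Mb
  set δ1 : ℝ := δ / (2 * (|Mb| + 1)) with hδ1
  have hδ10 : 0 < δ1 := by positivity
  obtain ⟨β, C1, hβ0, hβ1, hC1, hpar⟩ := params ε' hε0 hε1 δ1 hδ10 s
  obtain ⟨C, hC0, hcode⟩ := code_ex β hβ0
  refine ⟨s, I0, C * C1 ^ 2 + s * (C1 + 1) ^ d, ?_, ?_, fun r => ?_⟩
  · refine hsb.trans (mul_le_mul_of_nonneg_right ?_ hlg0)
    linarith
  · refine hIb.trans (mul_le_mul_of_nonneg_right ?_ hlg0)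
    linarith
  have hd2 : 2 * I0 + 5 = d + 2 := by omega
  rw [hd2]
  obtain ⟨j, q, n, hj, hq, hn1, hk, hn, hsig, hsm, hjq, h16, hnr⟩ := hpar r
  obtain ⟨A, _, _, hAne, hA, ⟨K⟩⟩ := hcode n hn1
  have hval1 : (outer K q).value ≤ δ1 := outer_value K hq hk hδ10.le hn
  have hval2 : 0 ≤ (outer K q).value := outer_value_nonneg K q
  have hq0 : NeZero q := ⟨by omega⟩
  have hE : Nonempty ((A → ZMod 2) × Pt n × (A → Fin q)) := inferInstance
  have hJ : (codeGame n d s m (outer K q).src (outer K q).dst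
      (fun e : (A → ZMod 2) × Pt n × (A → Fin q) => e.2.1)).value ≤ δ := by
    refine (hM n _ _ _ (outer K q).src (outer K q).dst
      (fun e : (A → ZMod 2) × Pt n × (A → Fin q) => e.2.1)).trans ?_
    have e1 : (Game.mk (outer K q).src (outer K q).dst
      (fun e : (A → ZMod 2) × Pt n × (A → Fin q) => Equiv.addRight e.2.1)) = outer K q := rfl
    rw [e1]
    have h1 : Mb * (outer K q).value ≤ |Mb| * δ1 := mul_le_mul (le_abs_self Mb) hval1 hval2 hM0
    have h2 : |Mb| * δ1 ≤ δ / 2 := by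
      rw [hδ1, mul_div_assoc', div_le_div_iff₀ (by positivity) (by norm_num)]
      nlinarith
    linarith
  set κ : ℝ := ε' / 8 with hκ
  have hκ0 : 0 ≤ κ := by positivity
  have hκ1 : κ ≤ 1 := by rw [hκ]; linarith
  have hcard : (Fintype.card (Pt s) : ℝ) = 2 ^ s := by simp [Pt, ZMod.card]
  obtain ⟨E, hE1, hE2, hE3⟩ := fam K hβ0 hβ1
    (V := ((A → ZMod 2) × Tb n d s) ⊕ ((A → ZMod 2) × Tb n d s)) (Ω := Pt s)
    (Sum.elim Prod.fst Prod.fst) (Sum.elim (fun u => u.2.1) (fun u => u.2.1)) (max r 2) j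
    (le_max_right _ _) hj κ κ hκ0 hκ1 hsig hκ1 (by rw [hcard]; exact hsm)
  have hmd1 : (m : ℝ) / 2 ^ d ≤ 1 := hmd.trans (hta.trans (by linarith))
  have hobj := obj K hβ0 hβ1 κ hκ0 hκ1 j hj hsig q hq d s m hmd1
  set J := codeGame n d s m (outer K q).src (outer K q).dst
      (fun e : (A → ZMod 2) × Pt n × (A → Fin q) => e.2.1) with hJdef
  have hne : Nonempty (((A → ZMod 2) × Pt n × (A → Fin q)) × Pt s × Tb n d s × Nz n d s m) := by
    infer_instance
  have hsat : 1 - ε ≤ E (fun z => (Game.mk J.src J.dst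
      (fun e => Equiv.addRight e.2.1)).satFrac (fun u => z (Sum.inl u)) (fun w => z (Sum.inr w))) := by
    rw [E_satFrac]
    have hcp : (0 : ℝ) < (Fintype.card (((A → ZMod 2) × Pt n × (A → Fin q)) × Pt s × Tb n d s ×
        Nz n d s m) : ℝ) := by
      exact_mod_cast Fintype.card_pos
    rw [le_div_iff₀ hcp]
    refine le_trans ?_ (Finset.sum_le_sum fun e _ => hE3 (Sum.inl (J.src e)) (Sum.inr (J.dst e))
      (fun z => if (Equiv.addRight e.2.1) (z (Sum.inl (J.src e))) = z (Sum.inr (J.dst e))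
        then (1 : ℝ) else 0) ?_ ?_)
    · rw [← Finset.mul_sum]
      refine le_trans ?_ (mul_le_mul_of_nonneg_left hobj (by rw [hκ]; linarith))
      rw [← mul_assoc]
      refine mul_le_mul_of_nonneg_right ?_ hcp.le
      exact hεε.trans (final_ineq ε' κ _ _ _ hε0.le hε1 hκ (hmd.trans hta) hjq h16)
    · intro z z' hzz'
      have h1 : z (Sum.inl (J.src e)) = z' (Sum.inl (J.src e)) := hzz' _ (by simp)
      have h2 : z (Sum.inr (J.dst e)) = z' (Sum.inr (J.dst e)) := hzz' _ (by simp)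
      simp only [h1, h2]
    · intro z
      split_ifs
      · exact zero_le_one
      · exact le_rfl
  obtain ⟨src', dst', E', g1, g2, g3, g4⟩ := transfer (Ω := Pt s) r J.src J.dst
    (fun e => Equiv.addRight e.2.1) δ (1 - ε) hJ
    E ⟨hE1.one, fun f D hD => hE1.nonneg f D (hD.trans (le_max_left _ _))⟩ hE2 hsat
  exact ⟨_, _, inferInstance, src', dst', (fun e => e.2.1), E', hne,
    size_le n d s C C1 r hC0 hC1 hA hnr, g1, g2, g3, g4⟩

end Pool.Agent.Lib.P325rx
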