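import Pool.Agent.Lib.P325rx.Main

/-!
Base families for larger numbers of labels.
-/

open scoped BigOperators

namespace Pool.Agent.Lib.P325rx

open Pool.Agent.Lib.P325x (Game)
open Pool.Agent.Lib.P325h (IsLocalExpectation)

/-- Append zeros. -/
def pad {m m' : ℕ} (x : Fin m → ZMod 2) : Fin m' → ZMod 2 :=
  fun i => if hi : i.1 < m then x ⟨i.1, hi⟩ else 0

/-- The first coordinates. -/
def res {m m' : ℕ} (h : m ≤ m') (x : Fin m' → ZMod 2) : Fin m → ZMod 2 :=
  fun i => x (Fin.castLE h i)

theorem pad_add {m m' : ℕ} (x y : Fin m → ZMod 2) :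
    (pad (x + y) : Fin m' → ZMod 2) = pad x + pad y := by
  funext i
  simp only [pad, Pi.add_apply]
  split_ifs with hi
  · rfl
  · rw [add_zero]

theorem res_pad {m m' : ℕ} (h : m ≤ m') (x : Fin m → ZMod 2) : res h (pad x) = x := by
  funext i
  simp only [res, pad]
  rw [dif_pos (by simp)]
  rfl

theorem res_add {m m' : ℕ} (h : m ≤ m') (x y : Fin m' → ZMod 2) :
    res h (x + y) = res h x + res h y := rfl

theorem satFrac_mono {U W U' W' Ω Ω' ι : Type} [Fintype ι] (I : Game U W Ω ι)
    (I' : Game U' W' Ω' ι) (x : U → Ω) (y : W → Ω) (x' : U' → Ω') (y' : W' → Ω')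
    (h : ∀ e, I.perm e (x (I.src e)) = y (I.dst e) → I'.perm e (x' (I'.src e)) = y' (I'.dst e)) :
    I.satFrac x y ≤ I'.satFrac x' y' := by
  classical
  unfold Game.satFrac
  refine div_le_div_of_nonneg_right ?_ (Nat.cast_nonneg _)
  norm_cast
  refine Finset.card_le_card fun e he => ?_
  rw [Finset.mem_filter] at he ⊢
  exact ⟨he.1, h e he.2⟩

theorem BaseFor.pad {ε δ : ℝ} {m m' a : ℕ} {C : ℝ} (hm : m ≤ m') (h : BaseFor ε δ m a C) :
    BaseFor ε δ m' a C := by
  intro r
  obtain ⟨n, ι, i1, src, dst, b, E, hne, hval, hE, hSq, hsat, hn⟩ := h r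
  refine ⟨n, ι, i1, src, dst, fun e => Pool.Agent.Lib.P325rx.pad (b e),
    E.comp (LinearMap.funLeft ℝ ℝ (fun (z : Fin n ⊕ Fin n → (Fin m → ZMod 2))
      (p : Fin n ⊕ Fin n) => (Pool.Agent.Lib.P325rx.pad (z p) : Fin m' → ZMod 2))), hne, ?_, ?_,
    ?_, ?_, hn⟩
  · refine le_trans ?_ hval
    unfold Game.value
    refine ciSup_le fun p => ?_
    refine le_trans ?_ (le_ciSup (f := fun p : (Fin n → (Fin m → ZMod 2)) ×
      (Fin n → (Fin m → ZMod 2)) => (Game.mk src dst (fun e => Equiv.addRight (b e))).satFrac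
        p.1 p.2) (Set.finite_range _).bddAbove (fun u => res hm (p.1 u), fun u => res hm (p.2 u)))
    refine satFrac_mono _ _ _ _ _ _ fun e h1 => ?_
    have h2 : p.1 (src e) + Pool.Agent.Lib.P325rx.pad (b e) = p.2 (dst e) := h1
    have h3 : res hm (p.1 (src e)) + b e = res hm (p.2 (dst e)) := by
      rw [← h2, res_add, res_pad]
    exact h3
  · refine ⟨hE.one, ?_⟩
    intro f D hD hf hf0
    refine hE.nonneg _ D hD ?_ (fun z => hf0 _)
    intro x y hxy
    exact hf fun p hp => congrArg _ (hxy p hp)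
  · intro c g
    exact hSq c (fun p x => g p (Pool.Agent.Lib.P325rx.pad x))
  · have key : ∀ z : Fin n ⊕ Fin n → (Fin m → ZMod 2),
        (Game.mk src dst (fun e => Equiv.addRight (b e))).satFrac
          (fun u => z (Sum.inl u)) (fun w => z (Sum.inr w)) =
        (Game.mk src dst (fun e => Equiv.addRight
          (Pool.Agent.Lib.P325rx.pad (b e) : Fin m' → ZMod 2))).satFrac
          (fun u => Pool.Agent.Lib.P325rx.pad (z (Sum.inl u)))
          (fun w => Pool.Agent.Lib.P325rx.pad (z (Sum.inr w))) := by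
      intro z
      apply le_antisymm
      · apply satFrac_mono
        intro e h1
        have h2 : z (Sum.inl (src e)) + b e = z (Sum.inr (dst e)) := h1
        have h3 : (Pool.Agent.Lib.P325rx.pad (z (Sum.inl (src e))) : Fin m' → ZMod 2) +
            Pool.Agent.Lib.P325rx.pad (b e) = Pool.Agent.Lib.P325rx.pad (z (Sum.inr (dst e))) := by
          rw [← h2, pad_add]
        exact h3
      · apply satFrac_mono
        intro e h1
        have h2 : (Pool.Agent.Lib.P325rx.pad (z (Sum.inl (src e))) : Fin m' → ZMod 2) +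
            Pool.Agent.Lib.P325rx.pad (b e) = Pool.Agent.Lib.P325rx.pad (z (Sum.inr (dst e))) := h1
        have h3 := congrArg (res hm) h2
        rw [res_add, res_pad, res_pad, res_pad] at h3
        exact h3
    rw [LinearMap.comp_apply]
    have key2 := congrArg E (funext key)
    rw [key2] at hsat
    exact hsat

end Pool.Agent.Lib.P325rx
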