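import Pool.Agent.Lib.P325rx.Base
import Pool.Agent.Lib.P325rx.Pad

/-!
Convex programs of quasi-polynomial size on top of the standard semidefinite relaxation, with
explicit numbers of labels and exponents.
-/

open scoped BigOperators

namespace Pool.Agent.Lib.P325rx

open Pool.Agent.Lib.P325x (Game)
open Pool.Agent.Lib.P325av (Certifies relabel)
open Pool.Agent.Lib.P325pr (StandardSDP)

/-- The exponent. -/
noncomputable def cX (ε δ : ℝ) : ℝ := 1 / (150 * Real.log (2 / ε * Real.log (2 / δ)))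

theorem log_three_half_ge : (101 : ℝ) / 250 ≤ Real.log (3 / 2) := by
  have h3 : Real.log (2 ^ 7) ≤ Real.log ((3 / 2) ^ 12) :=
    Real.log_le_log (by norm_num) (by norm_num)
  rw [Real.log_pow, Real.log_pow] at h3
  have := Real.log_two_gt_d9
  push_cast at h3
  linarith

theorem fourth_root (ε : ℝ) (hε : 0 < ε) (hεh : ε ≤ 1 / 2) :
    ε / 4 ≤ 1 - Real.sqrt (Real.sqrt (1 - ε)) := by
  have h1 : Real.sqrt (1 - ε) ≤ 1 - ε / 2 := by
    apply Real.sqrt_le_iff.2
    constructor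
    · linarith
    · nlinarith
  have h2 : Real.sqrt (Real.sqrt (1 - ε)) ≤ 1 - ε / 4 := by
    apply Real.sqrt_le_iff.2
    constructor
    · linarith
    · nlinarith
  linarith

theorem log20_le (δ : ℝ) (hδ : 0 < δ) (hδh : δ ≤ 1 / 2) :
    Real.log (20 / δ) ≤ 8 / 3 * Real.log (2 / δ) := by
  have h0 : Real.log (20 / δ) = Real.log 10 + Real.log (2 / δ) := by
    rw [← Real.log_mul (by norm_num) (by positivity)]
    congr 1
    field_simp
    norm_num
  have h1 : 3 * Real.log 10 ≤ 5 * Real.log 4 := by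
    have h3 : Real.log (10 ^ 3) ≤ Real.log (4 ^ 5) := Real.log_le_log (by norm_num) (by norm_num)
    rw [Real.log_pow, Real.log_pow] at h3
    push_cast at h3
    linarith
  have h2 : Real.log 4 ≤ Real.log (2 / δ) := by
    apply Real.log_le_log (by norm_num)
    rw [le_div_iff₀ hδ]
    linarith
  rw [h0]
  linarith

theorem log20_le' (δ : ℝ) (hδ : 0 < δ) (hδh : δ ≤ 1 / 2) :
    Real.log (20 / δ) ≤ 16 / 3 * Real.log (1 / δ) := by
  have h0 : Real.log (20 / δ) = Real.log 20 + Real.log (1 / δ) := by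
    rw [← Real.log_mul (by norm_num) (by positivity)]
    congr 1
    field_simp
  have h1 : 3 * Real.log 20 ≤ 13 * Real.log 2 := by
    have h3 : Real.log (20 ^ 3) ≤ Real.log (2 ^ 13) := Real.log_le_log (by norm_num) (by norm_num)
    rw [Real.log_pow, Real.log_pow] at h3
    push_cast at h3
    linarith
  have h2 : Real.log 2 ≤ Real.log (1 / δ) := by
    apply Real.log_le_log (by norm_num)
    rw [le_div_iff₀ hδ]
    linarith
  rw [h0]
  linarith

theorem logZ_ge (ε δ : ℝ) (hε : 0 < ε) (hεh : ε ≤ 1 / 2) (hδ : 0 < δ) (hδh : δ ≤ 1 / 2) :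
    11 / 2 ≤ 2 / ε * Real.log (2 / δ) ∧ 83 / 50 ≤ Real.log (2 / ε * Real.log (2 / δ)) := by
  have h1 : Real.log 4 ≤ Real.log (2 / δ) := by
    apply Real.log_le_log (by norm_num)
    rw [le_div_iff₀ hδ]
    linarith
  have h2 : Real.log 4 = 2 * Real.log 2 := by
    rw [show (4 : ℝ) = 2 ^ 2 by norm_num, Real.log_pow]
    push_cast
    ring
  have h3 := Real.log_two_gt_d9
  have h4 : (4 : ℝ) ≤ 2 / ε := by
    rw [le_div_iff₀ hε]
    linarith
  have h5 : 11 / 2 ≤ 2 / ε * Real.log (2 / δ) := by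
    have h6 : (4 : ℝ) * (2 * Real.log 2) ≤ 2 / ε * Real.log (2 / δ) :=
      mul_le_mul h4 (h2 ▸ h1) (by linarith) (by positivity)
    linarith
  refine ⟨h5, ?_⟩
  have h6 : Real.log (11 / 2) ≤ Real.log (2 / ε * Real.log (2 / δ)) :=
    Real.log_le_log (by norm_num) h5
  have h7 : Real.log (2 ^ 12) ≤ Real.log ((11 / 2) ^ 5) :=
    Real.log_le_log (by norm_num) (by norm_num)
  rw [Real.log_pow, Real.log_pow] at h7
  push_cast at h7
  linarith

theorem cX_pos (ε δ : ℝ) (hε : 0 < ε) (hεh : ε ≤ 1 / 2) (hδ : 0 < δ) (hδh : δ ≤ 1 / 2) :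
    0 < cX ε δ := by
  have := (logZ_ge ε δ hε hεh hδ hδh).2
  unfold cX
  positivity

/-- The exponent is small enough. -/
theorem cX_le (ε δ : ℝ) (hε : 0 < ε) (hεh : ε ≤ 1 / 2) (hδ : 0 < δ) (hδh : δ ≤ 1 / 2) (I : ℕ)
    (hI : (3 / 2 : ℝ) ^ I ≤ 62 * (65 / (2 * ε)) * (8 / 3 * Real.log (2 / δ))) :
    cX ε δ ≤ (4 * (((2 * I + 5 : ℕ) : ℝ) + 1))⁻¹ := by
  obtain ⟨hZ, hlZ⟩ := logZ_ge ε δ hε hεh hδ hδh
  obtain ⟨Z, hZe⟩ : ∃ Z : ℝ, Z = 2 / ε * Real.log (2 / δ) := ⟨_, rfl⟩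
  have h1 : (3 / 2 : ℝ) ^ I ≤ 2 ^ 12 * Z := by
    refine hI.trans ?_
    have : 62 * (65 / (2 * ε)) * (8 / 3 * Real.log (2 / δ)) = 8060 / 3 * Z := by
      rw [hZe]
      field_simp
      ring
    rw [this]
    rw [← hZe] at hZ
    linarith
  rw [← hZe] at hZ hlZ
  have hZ0 : 0 < Z := by linarith
  have h2 : (I : ℝ) * Real.log (3 / 2) ≤ 12 * Real.log 2 + Real.log Z := by
    have h3 := Real.log_le_log (by positivity) h1
    rw [Real.log_pow, Real.log_mul (by positivity) hZ0.ne', Real.log_pow] at h3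
    push_cast at h3
    exact h3
  have h3 := log_three_half_ge
  have h4 := Real.log_two_lt_d9
  have hI0 : (0 : ℝ) ≤ I := Nat.cast_nonneg _
  have h5 : (I : ℝ) * (101 / 250) ≤ 12 * Real.log 2 + Real.log Z :=
    (mul_le_mul_of_nonneg_left h3 hI0).trans h2
  unfold cX
  rw [← hZe, one_div]
  apply inv_anti₀ (by positivity)
  push_cast
  linarith

theorem finX (ε δ : ℝ) (hε : 0 < ε) (hεh : ε ≤ 1 / 2) (hδ : 0 < δ) (hδh : δ ≤ 1 / 2) (m' : ℕ)
    (hm' : (1 / δ) ^ (12000 / ε) ≤ (2 : ℝ) ^ m') :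
    ∃ N0 : ℕ, ∀ N ≥ N0, Hard ε δ (cX ε δ) m' N := by
  obtain ⟨ε', hε'⟩ : ∃ ε' : ℝ, ε' = 1 - Real.sqrt (Real.sqrt (1 - ε)) := ⟨_, rfl⟩
  have h1 : ε / 4 ≤ ε' := hε' ▸ fourth_root ε hε hεh
  have h2 : ε' ≤ 1 := by
    have := Real.sqrt_nonneg (Real.sqrt (1 - ε))
    linarith
  have h3 : 0 < ε' := by linarith
  obtain ⟨m, I, C, hm, hI, hb⟩ := baseX ε' δ h3 h2 hδ (by linarith)
  have h4 : 8 / ε' + 1 ≤ 65 / (2 * ε) := by
    have h5 : 8 / ε' ≤ 8 / (ε / 4) := div_le_div_of_nonneg_left (by norm_num) (by positivity) h1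
    have h6 : 8 / (ε / 4) + 1 ≤ 65 / (2 * ε) := by
      have h7 : 8 / (ε / 4) = 32 / ε := by field_simp; norm_num
      have h8 : 65 / (2 * ε) = 32 / ε + 1 / (2 * ε) := by field_simp; norm_num
      have h9 : 1 ≤ 1 / (2 * ε) := by
        rw [le_div_iff₀ (by positivity)]
        linarith
      rw [h7, h8]
      linarith
    linarith
  have hl1 : 0 < Real.log (1 / δ) := by
    apply Real.log_pos
    rw [lt_div_iff₀ hδ]
    linarith
  have hl2 : 0 < Real.log (2 / δ) := by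
    apply Real.log_pos
    rw [lt_div_iff₀ hδ]
    linarith
  have hl3 : 0 ≤ Real.log (20 / δ) := by
    apply Real.log_nonneg
    rw [le_div_iff₀ hδ]
    linarith
  have hmm : m ≤ m' := by
    rw [← pow_le_pow_iff_right₀ (show (1 : ℝ) < 2 by norm_num)]
    refine le_trans ?_ hm'
    have h5 : (m : ℝ) ≤ 16640 / ε * Real.log (1 / δ) := by
      refine hm.trans ?_
      have h6 : 96 * (8 / ε' + 1) * Real.log (20 / δ) ≤
          96 * (65 / (2 * ε)) * (16 / 3 * Real.log (1 / δ)) :=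
        mul_le_mul (by linarith) (log20_le' δ hδ hδh) hl3 (by positivity)
      refine h6.trans (le_of_eq ?_)
      field_simp
      norm_num
    rw [Real.rpow_def_of_pos (by positivity), ← Real.exp_log (show (0 : ℝ) < 2 by norm_num),
      ← Real.exp_nat_mul]
    apply Real.exp_le_exp.2
    have h7 := Real.log_two_lt_d9
    have h8 : (m : ℝ) * Real.log 2 ≤ 16640 / ε * Real.log (1 / δ) * (7 / 10) :=
      mul_le_mul h5 (by linarith) (Real.log_nonneg (by norm_num)) (by positivity)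
    refine h8.trans ?_
    have h9 : 16640 / ε * Real.log (1 / δ) * (7 / 10) = 11648 / ε * Real.log (1 / δ) := by
      field_simp
      norm_num
    rw [h9, mul_comm (Real.log (1 / δ))]
    refine mul_le_mul_of_nonneg_right ?_ hl1.le
    exact div_le_div_of_nonneg_right (by norm_num) hε.le
  have hbase : BaseFor (1 - Real.sqrt (Real.sqrt (1 - ε))) δ m (2 * I + 5) C := by
    rw [← hε']
    intro r
    obtain ⟨n, ι, i1, src, dst, b, E, g1, g2, g3, g4, g5, g6⟩ := hb r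
    exact ⟨n, ι, i1, src, dst, b, E, g1, g3, g4, g5, g6, g2⟩
  obtain ⟨N0, hN0⟩ := mainX ε δ hε hεh m' (2 * I + 5) C (hbase.pad hmm)
  refine ⟨max N0 3, fun N hN => ?_⟩
  have hN3 : (3 : ℝ) ≤ N := by exact_mod_cast (le_max_right N0 3).trans hN
  refine (hN0 N ((le_max_left N0 3).trans hN)).mono ?_ ?_
  · rw [Real.le_log_iff_exp_le (by linarith)]
    have := Real.exp_one_lt_d9
    linarith
  · apply cX_le ε δ hε hεh hδ hδh I
    refine hI.trans ?_
    exact mul_le_mul (by linarith) (log20_le δ hδ hδh) hl3 (by positivity)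

end Pool.Agent.Lib.P325rx
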