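import Pool.Agent.Lib.P325pr.MainQ

/-!
The passage with an explicit exponent.
-/

open scoped BigOperators

namespace Pool.Agent.Lib.P325rx

open Pool.Agent.Lib.P325x (Game)
open Pool.Agent.Lib.P325h (IsLocalExpectation)
open Pool.Agent.Lib.P325av (Certifies relabel)
open Pool.Agent.Lib.P325pr

/-- Sherali-Adams solutions of every degree `r` with positive semidefinite second moments and
objective at least `1 - ε` for games of value at most `δ` with `2 ^ m` labels and at most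
`exp (C * (r + 1) ^ a)` vertices. -/
def BaseFor (ε δ : ℝ) (m a : ℕ) (C : ℝ) : Prop := ∀ r : ℕ,
    ∃ (n : ℕ) (ι : Type) (_ : Fintype ι) (src dst : ι → Fin n) (b : ι → (Fin m → ZMod 2))
      (E : ((Fin n ⊕ Fin n → (Fin m → ZMod 2)) → ℝ) →ₗ[ℝ] ℝ), Nonempty ι ∧
      (Game.mk src dst (fun e => Equiv.addRight (b e))).value ≤ δ ∧
      IsLocalExpectation r E ∧
      (∀ (c : ℝ) (h : Fin n ⊕ Fin n → (Fin m → ZMod 2) → ℝ),
        0 ≤ E (fun z => (c + ∑ p, h p (z p)) ^ 2)) ∧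
      1 - ε ≤ E (fun z => (Game.mk src dst (fun e => Equiv.addRight (b e))).satFrac
        (fun u => z (Sum.inl u)) (fun w => z (Sum.inr w))) ∧
      (n : ℝ) ≤ Real.exp (C * ((r : ℝ) + 1) ^ a)

/-- The conclusion for the exponent `c`, `2 ^ m` labels and graph size `N`. -/
def Hard (ε δ c : ℝ) (m N : ℕ) : Prop :=
      ∃ (ι : Type) (_ : Fintype ι) (src dst : ι → Fin N) (b : ι → (Fin m → ZMod 2)), Nonempty ι ∧
      (Game.mk src dst (fun e => Equiv.addRight (b e))).value ≤ δ ∧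
      ∀ (Y : Type) [AddCommGroup Y] [Module ℝ Y] (R D : ℕ)
        (A : Fin R → Y →ₗ[ℝ] (Fin D → ℝ)) (K : Fin R → Set (Fin D → ℝ))
        (pt : (Fin N ⊕ Fin N → (Fin m → ZMod 2)) → Y),
        (R : ℝ) ≤ Real.exp (Real.log N ^ (1 + c)) → (D : ℝ) ≤ Real.log N ^ c →
        (∀ j, Convex ℝ (K j)) → (∀ z j, A j (pt z) ∈ K j) →
        (Nat.card {g : Equiv.Perm (Fin N) × Equiv.Perm (Fin N) //
          Certifies ({y | ∀ j, A j y ∈ K j} ∩ StandardSDP pt) pt (1 - ε)
            (relabel (Game.mk src dst (fun e => Equiv.addRight (b e))) g)} : ℝ) ≤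
          (N.factorial : ℝ) ^ 2 / Real.exp (Real.log N ^ (1 + c))

/-- Smaller exponents. -/
theorem Hard.mono {ε δ c c' : ℝ} {m N : ℕ} (hN : 1 ≤ Real.log N) (hc : c' ≤ c)
    (h : Hard ε δ c m N) : Hard ε δ c' m N := by
  obtain ⟨ι, i1, src, dst, b, hne, hval, hall⟩ := h
  have h1 : Real.log N ^ (1 + c') ≤ Real.log N ^ (1 + c) :=
    Real.rpow_le_rpow_of_exponent_le hN (by linarith)
  have h2 : Real.log N ^ c' ≤ Real.log N ^ c := Real.rpow_le_rpow_of_exponent_le hN hc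
  refine ⟨ι, i1, src, dst, b, hne, hval, fun Y _ _ R D A K pt hR hD hK hpt => ?_⟩
  refine (hall Y R D A K pt (hR.trans (Real.exp_le_exp.2 h1)) (hD.trans h2) hK hpt).trans ?_
  exact div_le_div_of_nonneg_left (by positivity) (Real.exp_pos _) (Real.exp_le_exp.2 h1)

theorem mainX (ε δ : ℝ) (hε : 0 < ε) (hεh : ε ≤ 1 / 2) (m a : ℕ) (C : ℝ)
    (hbase : BaseFor (1 - Real.sqrt (Real.sqrt (1 - ε))) δ m a C) :
    ∃ N0 : ℕ, ∀ N ≥ N0, Hard ε δ ((4 * ((a : ℝ) + 1))⁻¹) m N := by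
  have hmain : ∃ (c : ℝ), c = (4 * ((a : ℝ) + 1))⁻¹ ∧ 0 < c ∧ ∃ N0 : ℕ, ∀ N ≥ N0,
      ∃ (ι : Type) (_ : Fintype ι) (src dst : ι → Fin N) (b : ι → (Fin m → ZMod 2)), Nonempty ι ∧
      (Game.mk src dst (fun e => Equiv.addRight (b e))).value ≤ δ ∧
      ∀ (Y : Type) [AddCommGroup Y] [Module ℝ Y] (R D : ℕ)
        (A : Fin R → Y →ₗ[ℝ] (Fin D → ℝ)) (K : Fin R → Set (Fin D → ℝ))
        (pt : (Fin N ⊕ Fin N → (Fin m → ZMod 2)) → Y),
        (R : ℝ) ≤ Real.exp (Real.log N ^ (1 + c)) → (D : ℝ) ≤ Real.log N ^ c →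
        (∀ j, Convex ℝ (K j)) → (∀ z j, A j (pt z) ∈ K j) →
        (Nat.card {g : Equiv.Perm (Fin N) × Equiv.Perm (Fin N) //
          Certifies ({y | ∀ j, A j y ∈ K j} ∩ StandardSDP pt) pt (1 - ε)
            (relabel (Game.mk src dst (fun e => Equiv.addRight (b e))) g)} : ℝ) ≤
          (N.factorial : ℝ) ^ 2 / Real.exp (Real.log N ^ (1 + c)) := by
    obtain ⟨s, hs⟩ : ∃ s : ℝ, s = 1 - ε := ⟨_, rfl⟩
    rw [← hs] at hbase
    have hs2 : 1 / 2 ≤ s := by linarith
    have hs1 : s < 1 := by linarith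
    have hsε : 1 - ε ≤ s := hs.ge
    have hs0 : 0 < s := by linarith
    have hr0 : 0 < Real.sqrt s := Real.sqrt_pos.2 hs0
    have hr1 : Real.sqrt s < 1 := by
      rw [Real.sqrt_lt' one_pos]
      linarith
    have hq1 : Real.sqrt (Real.sqrt s) < 1 := by
      rw [Real.sqrt_lt' one_pos]
      linarith
    have hqr : Real.sqrt s < Real.sqrt (Real.sqrt s) := by
      rw [Real.lt_sqrt hr0.le]
      nlinarith
    have hθ0 : 0 < 1 / Real.sqrt s - 1 := by
      have : 1 < 1 / Real.sqrt s := by rw [lt_div_iff₀ hr0]; linarith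
      linarith
    set θ : ℝ := 1 / Real.sqrt s - 1 with hθ
    set η : ℝ := Real.sqrt (Real.sqrt s) - Real.sqrt s with hη
    have hη0 : 0 < η := by linarith
    set q : ℕ := Fintype.card (Fin m → ZMod 2) with hq
    have hq0 : 1 ≤ q := Fintype.card_pos
    have ha0 : (0 : ℝ) < 4 * ((a : ℝ) + 1) := by positivity
    set c : ℝ := (4 * ((a : ℝ) + 1))⁻¹ with hc
    have hc0 : 0 < c := inv_pos.2 ha0
    set u0 : ℝ := 16 * |C| * 165 ^ a + 64 * (200000 * (q : ℝ) ^ 6) + 2624 + (16 / θ + 3) + 10 / η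
      with hu0
    refine ⟨c, hc, hc0, ⌈Real.exp (u0 ^ (4 * (a + 1)))⌉₊, fun N hN => ?_⟩
    have hp1 : 0 ≤ 16 * |C| * 165 ^ a := by positivity
    have hp2 : 0 ≤ 64 * (200000 * (q : ℝ) ^ 6) := by positivity
    have hp3 : 0 ≤ 16 / θ + 3 := by positivity
    have hp4 : 0 ≤ 10 / η := by positivity
    have hu00 : 0 ≤ u0 := by linarith
    have hNe : Real.exp (u0 ^ (4 * (a + 1))) ≤ N :=
      (Nat.le_ceil _).trans (by exact_mod_cast hN)
    have hN0 : (0 : ℝ) < N := lt_of_lt_of_le (Real.exp_pos _) hNe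
    set l : ℝ := Real.log N with hl
    have hNl : (N : ℝ) = Real.exp l := (Real.exp_log hN0).symm
    have hl0 : u0 ^ (4 * (a + 1)) ≤ l := by
      rw [hl, Real.le_log_iff_exp_le hN0]
      exact hNe
    have hl00 : 0 ≤ l := (pow_nonneg hu00 _).trans hl0
    set u : ℝ := l ^ c with hu
    have hu' : 0 ≤ u := Real.rpow_nonneg hl00 c
    have hul : u ^ (4 * (a + 1)) = l := by
      rw [hu, ← Real.rpow_natCast, ← Real.rpow_mul hl00]
      have : c * ((4 * (a + 1) : ℕ) : ℝ) = 1 := by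
        rw [hc]
        push_cast
        exact inv_mul_cancel₀ ha0.ne'
      rw [this, Real.rpow_one]
    have huu : u0 ≤ u := by
      have h1 : u0 ^ (4 * (a + 1)) ≤ u ^ (4 * (a + 1)) := by rw [hul]; exact hl0
      exact le_of_pow_le_pow_left₀ (by omega) hu' h1
    have hu1 : 1 ≤ u := by linarith
    have hlpos : 0 < l := by
      rw [← hul]
      positivity
    have hlc : l ^ (1 + c) = u ^ (4 * (a + 1)) * u := by
      rw [Real.rpow_add hlpos, Real.rpow_one, hul]
    rw [hlc]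
    -- the small game
    obtain ⟨n, ι, i1, src, dst, b, E, hne, hval, hE, hSq, hsat, hnC⟩ := hbase (4 * mm u)
    have hn1 : 1 ≤ n := by
      obtain ⟨e⟩ := hne
      have := (src e).2
      omega
    set x : ℝ := Real.exp (u ^ (4 * (a + 1)) / 64) with hx
    have hmm1 : 1 ≤ mm u := by
      have h1 := mm_ge u
      have h2 : (1 : ℝ) ≤ u ^ 2 := one_le_pow₀ hu1
      have h3 : (0 : ℝ) < mm u := by linarith
      exact_mod_cast h3
    have hNx : (N : ℝ) = x ^ 64 := by
      rw [hNl, hx, ← Real.exp_nat_mul, hul]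
      congr 1
      push_cast
      ring
    obtain ⟨K, τ, L, bb, hK1, hnK, hτ, hT, hL, hX1, hb0, hb, hfin⟩ := paraQ q hq0 x
      (para_x a q u hu1 (by linarith)) N n (mm u) hNx hn1 hmm1
      (hnC.trans (para_n a C u hu1 (by linarith))) (para_m a u (by linarith))
    obtain ⟨src', dst', hval', hall⟩ := lpQ (Real.sqrt s) (Real.sqrt (Real.sqrt s)) δ hr1.le hqr
      (by omega : 2 ≤ 4 * mm u) hn1 hK1 hnK src dst (fun e => Equiv.addRight (b e)) E hval hE hSq
      (by linarith) τ L bb hτ hT hL hX1 hb0 hb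
    refine ⟨ι, i1, src', dst', b, hne, hval', fun Y _ _ R D A K' pt hR hD hK hpt => ?_⟩
    obtain ⟨Rl, g, hRl, hg, himp⟩ := w_of_convex s hs0 hs1 R D A K' pt hK hpt
    have h1 := hall Rl g hg
    have h2 : (Nat.card {g : Equiv.Perm (Fin N) × Equiv.Perm (Fin N) //
            Certifies ({y | ∀ j, A j y ∈ K' j} ∩ StandardSDP pt) pt (1 - ε)
              (relabel (Game.mk src' dst' (fun e => Equiv.addRight (b e))) g)} : ℝ) ≤
        (Nat.card {σ : Equiv.Perm (Fin N) × Equiv.Perm (Fin N) //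
            CertW g (Real.sqrt s)
              (relabel (Game.mk src' dst' (fun e => Equiv.addRight (b e))) σ)} : ℝ) := by
      have hc : ∀ (I : Game (Fin N) (Fin N) (Fin m → ZMod 2) ι),
          Certifies ({y | ∀ j, A j y ∈ K' j} ∩ StandardSDP pt) pt (1 - ε) I →
          CertW g (Real.sqrt s) I := by
        rintro I ⟨w, w0, hw1, hw2⟩
        exact himp ι I ⟨w, w0, hw1, fun y hy => (hw2 y hy).trans hsε⟩
      have h3 := Nat.card_le_card_of_injective
        (fun x : {g : Equiv.Perm (Fin N) × Equiv.Perm (Fin N) //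
            Certifies ({y | ∀ j, A j y ∈ K' j} ∩ StandardSDP pt) pt (1 - ε)
              (relabel (Game.mk src' dst' (fun e => Equiv.addRight (b e))) g)} =>
          (⟨x.1, hc _ x.2⟩ : {σ : Equiv.Perm (Fin N) × Equiv.Perm (Fin N) //
            CertW g (Real.sqrt s)
              (relabel (Game.mk src' dst' (fun e => Equiv.addRight (b e))) σ)}))
        (fun x y h => Subtype.ext (by
          have h4 := congrArg Subtype.val h
          exact h4))
      exact_mod_cast h3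
    refine h2.trans (h1.trans ?_)
    rw [div_eq_inv_mul ((N.factorial : ℝ) ^ 2)]
    refine mul_le_mul_of_nonneg_right ?_ (by positivity)
    have h5 := para_fin a θ η u hθ0 hη0 hu1 (by linarith) (by linarith) R D hR hD
    refine le_trans ?_ h5
    apply div_le_div_of_nonneg_right _ hη0.le
    have hRl0 : (0 : ℝ) ≤ Rl := Nat.cast_nonneg _
    apply mul_le_mul _ hfin (by positivity) (by positivity)
    linarith
  obtain ⟨c, hc, -, N0, hN0⟩ := hmain
  refine ⟨N0, fun N hN => ?_⟩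
  rw [← hc]
  exact hN0 N hN

end Pool.Agent.Lib.P325rx
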